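import Pool.Agent.Lib.MP_fa4fe0_co.Final

/-!
# Optimal hyperplane covers of extremal matrices need not be multiples of the deficiency

The definitions are in `Pool.Agent.Lib.MP_fa4fe0_co.Defs`.

The example, of order 9 and any dimension `d ≥ 3`: give the nine hyperplanes of the first three
directions the values
`0 3 3 6 6 8 8 12 16`, `0 5 5 8 8 16 20 20 26`, `0 0 4 6 16 21 21 24 24`
and all other hyperplanes the value `0`. An entry is one exactly when its three values add up to
at least `32`. The total of all values is `286 = 32 * 9 - 2`, no three values (one from each
direction) add up to `31`, and the 15 value triples with sum `32` determine the values. The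
deficiency is `2 / 32` and `value / 32` is an optimal cover, with entry `3 / 32`.

Extremality: for a zero entry `β` with value sum `S ≤ 30` put weight `2 / (32 - S)` on `β`, and
spread explicit nonnegative weights of the 15 tight value triples by product measures.
-/

namespace Pool.Agent.Results.MP_fa4fe0_co.NotMultiples

open Pool.Agent.Lib.MP_fa4fe0_co

/-- In every dimension `d ≥ 3` there is an extremal matrix of order `9` with an optimal
hyperplane cover that has an entry which is not an integer multiple of the deficiency. -/
theorem result (d : ℕ) (hd : 3 ≤ d) :
    ∃ (A : Set (Fin d → Fin 9)) (δ : ℝ) (Λ : Fin d → Fin 9 → ℝ),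
      IsExtremal A ∧ IsDeficiency A δ ∧ IsOptimalCover A Λ ∧
        ∃ i j, ¬ ∃ z : ℤ, Λ i j = z * δ :=
  main d hd

end Pool.Agent.Results.MP_fa4fe0_co.NotMultiples
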